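import Pool.Agent.V11225.CR.Fpt

/-!
# The colour-reversal number

Every graph with `n` vertices has colour-reversal number at least `n`; therefore deciding whether
the colour-reversal number is at most `k` is fixed-parameter tractable with respect to `k`.
-/

namespace Pool.Agent.Results.MP_3f5cd8_lc.ColourReversalFpt

open Pool.Agent.NPC Pool.Agent.H633R2 Pool.Agent.V11225.CR

/-- **Deciding whether `cr(G) ≤ k` is fixed-parameter tractable with respect to `k`, and the
colour-reversal number of a graph is at least the number of its vertices.** -/
theorem result :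
    IsFpt (fun x : List (List Bool) × ℕ => x.2) (fun x => cr (graphOf x.1) ≤ (x.2 : ℕ∞)) ∧
    ∀ (V : Type) [Fintype V] (G : SimpleGraph V), (Fintype.card V : ℕ∞) ≤ cr G :=
  ⟨isFpt, fun _ _ G => card_le_cr G⟩

end Pool.Agent.Results.MP_3f5cd8_lc.ColourReversalFpt
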